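import Pool.Agent.helper22.GS.Spec

set_option autoImplicit false

namespace Pool.Agent.GS

open Module

theorem BA_sq {F : Type} [Field F] [Finite F] (ψ : F ≃+* F) (s : F) (hs : s ≠ 0) :
    IsSquare (s * ψ s) := by
  classical
  haveI : Fintype F := Fintype.ofFinite F
  have hψ0 : ψ s ≠ 0 := by
    intro h
    apply hs
    rw [← map_zero ψ] at h
    exact ψ.injective h
  by_cases h : IsSquare s
  · obtain ⟨t, rfl⟩ := h
    refine ⟨t * ψ t, ?_⟩
    rw [map_mul]
    ring
  · have h2 : ¬ IsSquare (ψ s) := by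
      rintro ⟨t, ht⟩
      apply h
      refine ⟨ψ.symm t, ?_⟩
      apply ψ.injective
      rw [map_mul, RingEquiv.apply_symm_apply, ht]
    rw [← quadraticChar_one_iff_isSquare (mul_ne_zero hs hψ0), map_mul,
      quadraticChar_neg_one_iff_not_isSquare.2 h, quadraticChar_neg_one_iff_not_isSquare.2 h2]
    norm_num

theorem BA (hWT : WT_stmt) : BA_stmt := by
  intro F V _ _ _ _ _ B hB y ψ ν hy v hv0 hv x x' s s' hli hxx hs hs' hsq
  have hψ0 : ψ s ≠ 0 := by
    intro h
    apply hs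
    rw [← map_zero ψ] at h
    exact ψ.injective h
  have hψn : ψ (-s) ≠ 0 := by rw [map_neg]; exact neg_ne_zero.2 hψ0
  have hν := hy.ne
  -- the scalar
  obtain ⟨c, hc⟩ := hsq
  obtain ⟨d, hd⟩ := BA_sq ψ s hs
  have hd0 : d ≠ 0 := by
    intro h
    rw [h, mul_zero] at hd
    exact (mul_ne_zero hs hψ0) hd
  have hc0 : c ≠ 0 := by
    intro h
    rw [h, mul_zero] at hc
    exact (neg_ne_zero.2 (mul_ne_zero (mul_ne_zero hν hs) hs')) hc
  set μ : F := ν * c * d⁻¹ * ν⁻¹ with hμ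
  have hμ0 : μ ≠ 0 := by
    rw [hμ]
    exact mul_ne_zero (mul_ne_zero (mul_ne_zero hν hc0) (inv_ne_zero hd0)) (inv_ne_zero hν)
  have hμs : μ ^ 2 * (ν⁻¹ * ψ (-s)) = s' := by
    have e1 : μ = c * d⁻¹ := by rw [hμ]; field_simp
    have e2 : c ^ 2 = -(ν * s * s') := by rw [hc]; ring
    have e3 : d ^ 2 = s * ψ s := by rw [hd]; ring
    have e4 : μ ^ 2 = -(ν * s * s') / (s * ψ s) := by
      rw [e1, mul_pow, inv_pow, e2, e3, div_eq_mul_inv]
    rw [e4, map_neg]
    field_simp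
  have hvne : v ≠ 0 := by
    intro h
    apply hv 0
    have h1 : y (0 : V) = 0 := by
      have h2 := hy.add 0 0
      rw [add_zero] at h2
      exact (left_eq_add.1 h2)
    rw [h, h1, smul_zero]
  have hli1 : LinearIndependent F ![v, y v] := by
    rw [LinearIndependent.pair_iff]
    intro a b hab
    by_cases hb : b = 0
    · rw [hb, zero_smul, add_zero] at hab
      rcases smul_eq_zero.1 hab with h | h
      · exact ⟨h, hb⟩
      · exact absurd h hvne
    · exfalso
      apply hv (-(b⁻¹ * a))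
      have h1 : b • y v = -(a • v) := by
        rw [add_comm] at hab
        exact eq_neg_of_add_eq_zero_left hab
      have h2 : y v = b⁻¹ • (b • y v) := by rw [smul_smul, inv_mul_cancel₀ hb, one_smul]
      rw [h2, h1, smul_neg, smul_smul, neg_smul]
  have hli2 : LinearIndependent F ![x, μ • x'] := by
    rw [LinearIndependent.pair_iff] at hli ⊢
    intro a b hab
    rw [smul_smul] at hab
    obtain ⟨h1, h2⟩ := hli a (b * μ) hab
    exact ⟨h1, (mul_eq_zero.1 h2).resolve_right hμ0⟩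
  have hB1 : B v (y v) = 0 := by rw [hB.neg, hv0, neg_zero]
  have hB2 : B x (μ • x') = 0 := by rw [map_smul, hxx, smul_zero]
  obtain ⟨g, hg, hg1, hg2⟩ := hWT B hB v (y v) x (μ • x') hli1 hli2 hB1 hB2
  have h0 : Gen B y 2 (y * tv B v (-s) * y⁻¹ * (tv B v (-s))⁻¹) := Gen.comm (tv_mem hB v (-s))
  have h1 := Gen.conj h0 hg
  have e : g * (y * tv B v (-s) * y⁻¹ * (tv B v (-s))⁻¹) * g⁻¹ = tv B x s * tv B x' s' := by
    rw [tv_conj hB hy, tv_inv hB, neg_neg]
    have e1 : g * (tv B (y v) (ν⁻¹ * ψ (-s)) * tv B v s) * g⁻¹ =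
        (g * tv B (y v) (ν⁻¹ * ψ (-s)) * g⁻¹) * (g * tv B v s * g⁻¹) := by group
    rw [e1, tv_conj_sp hB hg, tv_conj_sp hB hg, hg1, hg2, tv_smul hB, hμs]
    exact (tv_comm hB hxx s s').symm
  rw [e] at h1
  exact h1

end Pool.Agent.GS
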