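import Pool.Agent.helper22.GS.Spec

set_option autoImplicit false

namespace Pool.Agent.GS

open Module

theorem DSV : DSV_stmt := by
  intro F V _ _ _ B hB y ψ ν hy hκ hT
  obtain ⟨κ, hκ⟩ := hκ
  obtain ⟨lam, μ, e, f, hlam, hμ, h1, h2⟩ := hT
  have hye : ∀ i, y (e i) = lam⁻¹ • e i := by
    intro i
    have h := (h1 i).1
    calc y (e i) = lam⁻¹ • (lam • y (e i)) := by rw [smul_smul, inv_mul_cancel₀ hlam, one_smul]
      _ = lam⁻¹ • e i := by rw [h]
  have hyv : y (e 0 + κ • e 1) = lam⁻¹ • e 0 + (ψ κ * lam⁻¹) • e 1 := by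
    rw [hy.add, hy.smul, hye, hye, smul_smul]
  have he : ∀ i j, B (e i) (e j) = 0 := fun i j => (h2 i j).1
  refine ⟨e 0 + κ • e 1, ?_, ?_⟩
  · rw [hyv]
    simp only [map_add, map_smul, LinearMap.add_apply, LinearMap.smul_apply, smul_eq_mul, he,
      mul_zero, add_zero]
  · intro c hc
    rw [hyv] at hc
    have f0 : B (lam⁻¹ • e 0 + (ψ κ * lam⁻¹) • e 1) (f 0) = B (c • (e 0 + κ • e 1)) (f 0) := by
      rw [hc]
    have f1 : B (lam⁻¹ • e 0 + (ψ κ * lam⁻¹) • e 1) (f 1) = B (c • (e 0 + κ • e 1)) (f 1) := by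
      rw [hc]
    have g00 : B (e 0) (f 0) = μ := by rw [(h2 0 0).2.2]; simp
    have g01 : B (e 0) (f 1) = 0 := by rw [(h2 0 1).2.2]; simp
    have g10 : B (e 1) (f 0) = 0 := by rw [(h2 1 0).2.2]; simp
    have g11 : B (e 1) (f 1) = μ := by rw [(h2 1 1).2.2]; simp
    simp only [map_add, map_smul, LinearMap.add_apply, LinearMap.smul_apply, smul_eq_mul, g00, g01,
      g10, g11, mul_zero, add_zero, zero_add] at f0 f1
    have hc1 : c = lam⁻¹ := (mul_right_cancel₀ hμ f0).symm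
    apply hκ
    have h3 : ψ κ * lam⁻¹ = c * κ := by
      apply mul_right_cancel₀ hμ
      rw [f1]; ring
    rw [hc1, mul_comm lam⁻¹ κ] at h3
    exact mul_right_cancel₀ (inv_ne_zero hlam) h3

end Pool.Agent.GS
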