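import Pool.Agent.helper22.GS.Spec

set_option autoImplicit false

namespace Pool.Agent.GS

open Module

theorem EM (hSB : SB_stmt) : EM_stmt := by
  intro F V W _ _ _ _ _ _ _ B C hB hC hle
  obtain ⟨n, b, b1, b2, b3⟩ := hSB B hB
  obtain ⟨k, c, c1, c2, c3⟩ := hSB C hC
  have hW : finrank F W = k + k := by
    rw [Module.finrank_eq_card_basis c]; simp
  have hV : finrank F V = n + n := by
    rw [Module.finrank_eq_card_basis b]; simp
  have hkn : k ≤ n := by omega
  set φ : Fin k ⊕ Fin k → Fin n ⊕ Fin n := Sum.map (Fin.castLE hkn) (Fin.castLE hkn) with hφ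
  set ι : W →ₗ[F] V := c.constr F (fun i => b (φ i)) with hι
  have hιc : ∀ i, ι (c i) = b (φ i) := by
    intro i
    rw [hι, Basis.constr_basis]
  have hmain : B.compl₁₂ ι ι = C := by
    apply LinearMap.ext_basis c c
    intro i j
    rw [LinearMap.compl₁₂_apply, hιc, hιc]
    have hcast : ∀ i j : Fin k, (Fin.castLE hkn i = Fin.castLE hkn j) ↔ i = j := by
      intro i j
      exact (Fin.castLE_injective hkn).eq_iff
    rcases i with i | i <;> rcases j with j | j
    · simp only [hφ, Sum.map_inl]
      rw [b1, c1]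
    · simp only [hφ, Sum.map_inl, Sum.map_inr]
      rw [b3, c3]
      simp only [hcast]
    · simp only [hφ, Sum.map_inl, Sum.map_inr]
      rw [hB.neg, hC.neg, b3, c3]
      simp only [hcast]
    · simp only [hφ, Sum.map_inr]
      rw [b2, c2]
  have hform : ∀ x y, B (ι x) (ι y) = C x y := by
    intro x y
    rw [← hmain, LinearMap.compl₁₂_apply]
  refine ⟨ι, ?_, hform⟩
  rw [← LinearMap.ker_eq_bot, LinearMap.ker_eq_bot']
  intro x hx
  apply hC.nd
  intro y
  rw [← hform x y, hx, map_zero, LinearMap.zero_apply]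

end Pool.Agent.GS
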