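import Pool.Agent.helper22.GS.Spec

set_option autoImplicit false

namespace Pool.Agent.GS

open Module

theorem LC (hLE : LE_stmt) (hCW : CW_stmt) (hDU : DU_stmt) : LC_stmt := by
  intro F V _ _ _ _ _ B hB n hn hfr y ν hy hZ
  obtain ⟨lam, hlam, hE⟩ := hLE B hB (by omega) y ν hy hZ
  set yl : V →ₗ[F] V :=
    { toFun := fun v => y v
      map_add' := fun u v => hy.add u v
      map_smul' := fun c v => by
        rw [hy.smul]; rfl } with hyl
  have hyl' : ∀ v, yl v = y v := fun v => rfl
  set E : Submodule F V := LinearMap.ker (yl - lam • LinearMap.id) with hEdef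
  have hEm : ∀ v, v ∈ E ↔ y v = lam • v := by
    intro v
    rw [hEdef, LinearMap.mem_ker, LinearMap.sub_apply, LinearMap.smul_apply, LinearMap.id_apply,
      hyl', sub_eq_zero]
  have hdim : finrank F V ≤ finrank F E + 2 := by
    obtain ⟨W, hW⟩ := Submodule.exists_isCompl E
    have h1 : finrank F E + finrank F W = finrank F V := Submodule.finrank_add_eq_of_isCompl hW
    by_contra hcon
    have h3 : 3 ≤ finrank F W := by omega
    set b : LinearMap.BilinForm F W := B.compl₁₂ (yl.comp W.subtype) W.subtype with hb
    obtain ⟨⟨w, hw0, hw⟩, -⟩ := hCW b h3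
    have h4 : B (y (w : V)) (w : V) = 0 := by
      have : b w w = B (y (w : V)) (w : V) := rfl
      rw [← this, hw]
    have h5 : (w : V) ∈ E := (hEm _).2 ((hE _).1 h4)
    have h6 : (w : V) ∈ E ⊓ W := ⟨h5, w.2⟩
    rw [hW.inf_eq_bot, Submodule.mem_bot] at h6
    exact hw0 (Subtype.ext h6)
  have hex : ∃ u ∈ E, ∃ u' ∈ E, B u u' ≠ 0 := by
    by_contra hcon
    push Not at hcon
    set k := finrank F E with hk
    set e : Fin k → V := fun i => ((Module.finBasis F E i : E) : V) with he
    have hli : LinearIndependent F e := by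
      have h1 := (Module.finBasis F E).linearIndependent
      exact h1.map' E.subtype (Submodule.ker_subtype E)
    set T : V →ₗ[F] (Fin k → F) := LinearMap.pi (fun i => B (e i)) with hT
    have hsurj : Function.Surjective T := by
      intro c
      obtain ⟨v, hv⟩ := hDU B hB e hli c
      refine ⟨v, ?_⟩
      funext i
      rw [hT, LinearMap.pi_apply]
      exact hv i
    have hker : E ≤ LinearMap.ker T := by
      intro v hv
      rw [LinearMap.mem_ker]
      funext i
      rw [hT, LinearMap.pi_apply]
      exact hcon (e i) (Module.finBasis F E i).2 v hv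
    have h2 := LinearMap.finrank_range_add_finrank_ker T
    rw [LinearMap.range_eq_top.2 hsurj, finrank_top] at h2
    have h3 : finrank F (Fin k → F) = k := by simp
    have h4 : k ≤ finrank F (LinearMap.ker T) := Submodule.finrank_mono hker
    omega
  obtain ⟨u, hu, u', hu', huu⟩ := hex
  refine ⟨lam, E, hlam, ?_, hEm, ?_, hdim⟩
  · have h1 := hy.form u u'
    rw [(hEm u).1 hu, (hEm u').1 hu'] at h1
    simp only [map_smul, LinearMap.smul_apply, smul_eq_mul, RingEquiv.refl_apply] at h1
    have h2 : (lam ^ 2 - ν) * B u u' = 0 := by linear_combination h1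
    rcases mul_eq_zero.1 h2 with h3 | h3
    · exact (sub_eq_zero.1 h3).symm
    · exact absurd h3 huu
  · intro v
    rw [hE v, hEm v]

end Pool.Agent.GS
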