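import Pool.Agent.helper22.GS.SpecT

set_option autoImplicit false

namespace Pool.Agent.GS

open Module

theorem LCT (hLE : LE_stmt) (hCW : CW_stmt) (hDU : DU_stmt) : LCT_stmt := by
  intro F V _ _ _ _ _ B hB n hn hfr y ν hy hZ
  obtain ⟨lam, hlam, hE⟩ := hLE B hB (by omega) y ν hy hZ
  set yl : V →ₗ[F] V :=
    { toFun := fun v => y v
      map_add' := fun u v => hy.add u v
      map_smul' := fun c v => by
        rw [hy.smul]; rfl } with hyl
  have hyl' : ∀ v, yl v = y v := fun v => rfl
  set E : Submodule F V := LinearMap.ker (yl - lam • LinearMap.id) with hEdef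
  have hEm : ∀ v, v ∈ E ↔ y v = lam • v := by
    intro v
    rw [hEdef, LinearMap.mem_ker, LinearMap.sub_apply, LinearMap.smul_apply, LinearMap.id_apply,
      hyl', sub_eq_zero]
  have hdim : finrank F V ≤ finrank F E + 2 := by
    obtain ⟨W, hW⟩ := Submodule.exists_isCompl E
    have h1 : finrank F E + finrank F W = finrank F V := Submodule.finrank_add_eq_of_isCompl hW
    by_contra hcon
    have h3 : 3 ≤ finrank F W := by omega
    set b : LinearMap.BilinForm F W := B.compl₁₂ (yl.comp W.subtype) W.subtype with hb
    obtain ⟨⟨w, hw0, hw⟩, -⟩ := hCW b h3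
    have h4 : B (y (w : V)) (w : V) = 0 := by
      have : b w w = B (y (w : V)) (w : V) := rfl
      rw [← this, hw]
    have h5 : (w : V) ∈ E := (hEm _).2 ((hE _).1 h4)
    have h6 : (w : V) ∈ E ⊓ W := ⟨h5, w.2⟩
    rw [hW.inf_eq_bot, Submodule.mem_bot] at h6
    exact hw0 (Subtype.ext h6)
  have hν : ν = lam ^ 2 := by
    by_cases hex : ∃ u ∈ E, ∃ u' ∈ E, B u u' ≠ 0
    · obtain ⟨u, hu, u', hu', huu⟩ := hex
      have h1 := hy.form u u'
      rw [(hEm u).1 hu, (hEm u').1 hu'] at h1
      simp only [map_smul, LinearMap.smul_apply, smul_eq_mul, RingEquiv.refl_apply] at h1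
      have h2 : (lam ^ 2 - ν) * B u u' = 0 := by linear_combination h1
      rcases mul_eq_zero.1 h2 with h3 | h3
      · exact (sub_eq_zero.1 h3).symm
      · exact absurd h3 huu
    · push Not at hex
      set k := finrank F E with hk
      set e : Fin k → V := fun i => ((Module.finBasis F E i : E) : V) with he
      have hli : LinearIndependent F e := by
        have h1 := (Module.finBasis F E).linearIndependent
        exact h1.map' E.subtype (Submodule.ker_subtype E)
      set T : V →ₗ[F] (Fin k → F) := LinearMap.pi (fun i => B (e i)) with hT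
      have hsurj : Function.Surjective T := by
        intro c
        obtain ⟨v, hv⟩ := hDU B hB e hli c
        refine ⟨v, ?_⟩
        funext i
        rw [hT, LinearMap.pi_apply]
        exact hv i
      have hker : E ≤ LinearMap.ker T := by
        intro v hv
        rw [LinearMap.mem_ker]
        funext i
        rw [hT, LinearMap.pi_apply]
        exact hex (e i) (Module.finBasis F E i).2 v hv
      have h2 := LinearMap.finrank_range_add_finrank_ker T
      rw [LinearMap.range_eq_top.2 hsurj, finrank_top] at h2
      have h3 : finrank F (Fin k → F) = k := by simp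
      have h4 : k ≤ finrank F (LinearMap.ker T) := Submodule.finrank_mono hker
      have hEK : E = LinearMap.ker T := Submodule.eq_of_le_of_finrank_eq hker (by omega)
      -- the map y - ν / lam
      set L : V →ₗ[F] V := yl - (ν / lam) • LinearMap.id with hL
      have hLv : ∀ v, L v = y v - (ν / lam) • v := by
        intro v
        rw [hL, LinearMap.sub_apply, LinearMap.smul_apply, LinearMap.id_apply, hyl']
      have hrange : LinearMap.range L ≤ E := by
        rintro _ ⟨u, rfl⟩
        rw [hEK, LinearMap.mem_ker]
        funext i
        rw [hT, LinearMap.pi_apply, Pi.zero_apply]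
        have hei : e i ∈ E := (Module.finBasis F E i).2
        have h5 := hy.form (e i) u
        rw [(hEm _).1 hei] at h5
        simp only [map_smul, LinearMap.smul_apply, smul_eq_mul, RingEquiv.refl_apply] at h5
        rw [hLv, map_sub, map_smul, smul_eq_mul]
        field_simp
        linear_combination h5
      have h6 := LinearMap.finrank_range_add_finrank_ker L
      have h7 : finrank F (LinearMap.range L) ≤ k := Submodule.finrank_mono hrange
      have h8 : 0 < finrank F (LinearMap.ker L) := by omega
      have h9 : ∃ e' : LinearMap.ker L, e' ≠ 0 := by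
        have : Nontrivial (LinearMap.ker L) := Module.finrank_pos_iff.1 h8
        exact exists_ne 0
      obtain ⟨⟨e', he'⟩, hne⟩ := h9
      have hne' : e' ≠ 0 := fun h => hne (Subtype.ext h)
      rw [LinearMap.mem_ker, hLv, sub_eq_zero] at he'
      have h10 : B (y e') e' = 0 := by
        rw [he', map_smul, LinearMap.smul_apply, hB.alt, smul_zero]
      have h11 := (hE e').1 h10
      rw [he'] at h11
      have h12 : ν / lam = lam := smul_left_injective F hne' h11
      rw [div_eq_iff hlam] at h12
      rw [h12, sq]
  refine ⟨lam, E, hlam, hν, hEm, ?_, hdim⟩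
  intro v
  rw [hE v, hEm v]

end Pool.Agent.GS
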